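import Mathlib

/-!
# Nilpotent endomorphisms of large index
-/

set_option autoImplicit false
set_option linter.unusedSectionVars false

namespace Pool.Agent.Y114.AP

open Module Polynomial

variable {k : Type*} [Field k] {V : Type*} [AddCommGroup V] [Module k V] [FiniteDimensional k V]

/-- If `A` commutes with the nilpotent `ν` and has no eigenvector, `ν ^ (dim V / 2) = 0`. -/
theorem pow_half_eq_zero {ν A : End k V} (hν : IsNilpotent ν) (hc : Commute A ν)
    (hA : ∀ c : k, ∀ v : V, A v = c • v → v = 0) : ν ^ (finrank k V / 2) = 0 := by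
  have hpow : ∀ j : ℕ, Commute A (ν ^ j) := fun j => hc.pow_right j
  have key : ∀ j : ℕ, ν ^ j ≠ 0 →
      finrank k (LinearMap.range (ν ^ (j + 1))) + 2 ≤ finrank k (LinearMap.range (ν ^ j)) := by
    intro j hj
    let R : Submodule k V := LinearMap.range (ν ^ j)
    let f : R →ₗ[k] V := ν.domRestrict R
    have h1 := LinearMap.finrank_range_add_finrank_ker f
    have h2 : LinearMap.range f = LinearMap.range (ν ^ (j + 1)) := by
      ext x
      constructor
      · rintro ⟨⟨y, ⟨z, rfl⟩⟩, rfl⟩
        exact ⟨z, by rw [pow_succ']; rfl⟩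
      · rintro ⟨z, rfl⟩
        exact ⟨⟨(ν ^ j) z, ⟨z, rfl⟩⟩, by rw [pow_succ']; rfl⟩
    rw [h2] at h1
    have h3 : 2 ≤ finrank k (LinearMap.ker f) := by
      by_contra hlt
      -- the kernel is nonzero
      have h4 : LinearMap.ker f ≠ ⊥ := by
        intro h
        have hinj : ∀ x ∈ R, ν x = 0 → x = 0 := by
          intro x hx h5
          have h6 : (⟨x, hx⟩ : R) ∈ LinearMap.ker f := h5
          rw [h, Submodule.mem_bot] at h6
          exact congrArg Subtype.val h6
        have hmem : ∀ m : ℕ, ∀ x ∈ R, (ν ^ m) x = 0 → x = 0 := by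
          intro m
          induction m with
          | zero => intro x _ h; exact h
          | succ m ih =>
            intro x hx h5
            rw [pow_succ'] at h5
            have h6 : (ν ^ m) x ∈ R := by
              obtain ⟨z, rfl⟩ := hx
              refine ⟨(ν ^ m) z, ?_⟩
              rw [← Module.End.mul_apply, ← Module.End.mul_apply, ← pow_add, ← pow_add, add_comm]
            exact ih x hx (hinj _ h6 h5)
        obtain ⟨m, hm⟩ := hν
        apply hj
        ext z
        exact hmem m ((ν ^ j) z) ⟨z, rfl⟩ (by rw [hm]; rfl)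
      have h5 : finrank k (LinearMap.ker f) = 1 := by
        have : 0 < finrank k (LinearMap.ker f) := by
          rw [Nat.pos_iff_ne_zero, Ne, Submodule.finrank_eq_zero]
          exact h4
        omega
      obtain ⟨⟨⟨v, hv⟩, hvk⟩, hv0, hspan⟩ := finrank_eq_one_iff'.1 h5
      have hAv : A v ∈ R := by
        obtain ⟨z, rfl⟩ := hv
        refine ⟨A z, ?_⟩
        exact (LinearMap.congr_fun (hpow j) z).symm
      have hvk' : ν v = 0 := hvk
      have hAk : ν (A v) = 0 := by
        have h7 : A (ν v) = ν (A v) := LinearMap.congr_fun hc v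
        rw [← h7, hvk', map_zero]
      obtain ⟨c, hc'⟩ := hspan ⟨⟨A v, hAv⟩, hAk⟩
      have h8 : c • v = A v := congrArg (fun x => ((x : LinearMap.ker f) : R).1) hc'
      apply hv0
      have h9 := hA c v h8.symm
      subst h9
      rfl
    change _ + 2 ≤ finrank k R
    omega
  have h5 : ∀ j : ℕ, ν ^ j ≠ 0 →
      finrank k (LinearMap.range (ν ^ (j + 1))) + 2 * (j + 1) ≤ finrank k V := by
    intro j
    induction j with
    | zero =>
      intro h
      have h1 := key 0 h
      have h2 : finrank k (LinearMap.range (ν ^ 0)) ≤ finrank k V := Submodule.finrank_le _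
      omega
    | succ j ih =>
      intro h
      have h1 := key (j + 1) h
      have h2 : ν ^ j ≠ 0 := by
        intro h0
        apply h
        rw [pow_succ, h0, zero_mul]
      have h3 := ih h2
      omega
  by_contra h
  have := h5 _ h
  omega

/-- Powers of `1 + ν` have the same index of unipotency. -/
theorem pow_sub_one_pow_ne_zero [CharZero k] {u : End k V} (hν : IsNilpotent (u - 1)) {j : ℕ}
    (hj : (u - 1) ^ j ≠ 0) {M : ℕ} (hM : 0 < M) : (u ^ M - 1) ^ j ≠ 0 ∧ IsNilpotent (u ^ M - 1) := by
  set ν := u - 1 with hνdef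
  have hu : u = ν + 1 := by rw [hνdef]; abel
  let p : k[X] := ∑ i ∈ Finset.range M, (X + 1) ^ i
  have hp1 : X * p = (X + 1) ^ M - 1 := by
    have := mul_geom_sum (X + 1 : k[X]) M
    rw [← this]
    ring
  have hp2 : p.eval 0 = (M : k) := by
    simp [p, eval_finsetSum]
  have h1 : u ^ M - 1 = ν * aeval ν p := by
    have := congrArg (aeval ν) hp1
    rw [map_mul, aeval_X, map_sub, map_pow, map_add, aeval_X, map_one, ← hu] at this
    exact this.symm
  have hcomm : Commute ν (aeval ν p) := by
    have : Commute (aeval ν (X : k[X])) (aeval ν p) := by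
      change aeval ν (X : k[X]) * aeval ν p = aeval ν p * aeval ν (X : k[X])
      rw [← map_mul, ← map_mul, mul_comm]
    rwa [aeval_X] at this
  obtain ⟨m, hm⟩ := id hν
  have hcop : IsCoprime p (X ^ m) := by
    refine IsCoprime.pow_right ?_
    rw [isCoprime_comm, ← sub_zero (X : k[X]), ← C_0]
    rw [(Polynomial.irreducible_X_sub_C (0 : k)).coprime_iff_not_dvd, dvd_iff_isRoot, IsRoot, hp2]
    exact Nat.cast_ne_zero.2 hM.ne'
  obtain ⟨a, b, hab⟩ := hcop
  have h2 : aeval ν a * aeval ν p = 1 := by
    have := congrArg (aeval ν) hab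
    rw [map_add, map_mul, map_mul, map_pow, aeval_X, hm, mul_zero, add_zero, map_one] at this
    exact this
  have hcomm2 : Commute (aeval ν a) (aeval ν p) := by
    change aeval ν a * aeval ν p = aeval ν p * aeval ν a
    rw [← map_mul, ← map_mul, mul_comm]
  constructor
  · intro h3
    rw [h1, hcomm.mul_pow] at h3
    apply hj
    have h4 : ν ^ j = ν ^ j * aeval ν p ^ j * aeval ν a ^ j := by
      rw [mul_assoc, ← hcomm2.symm.mul_pow, hcomm2.symm.eq, h2, one_pow, mul_one]
    rw [h4, h3, zero_mul]
  · refine ⟨m, ?_⟩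
    rw [h1, hcomm.mul_pow, hm, zero_mul]

end Pool.Agent.Y114.AP
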